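import Pool.Agent.H705.GB.Stm
import Pool.Graph.R_seed8.H305R2.MertensM

/-! Package NT2 of the project GB (helper705): the product of the local factors between `z` and `sqrt m`. Adapted from the
proof of the package NT2 of the project TR. -/

set_option autoImplicit false

namespace Pool.Agent.H405.GB

open Finset Filter Topology
open Pool.Agent.H705.GB
open Pool.Agent.H705.TR (PrimeIn Model un P_GEN P_CRT P_UN P_MOD)

/-- the logarithm of the local factor at the odd primes -/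
noncomputable def hh (n : ℕ) : ℝ := if n ≤ 2 then 0 else Real.log (1 - 1 / (n : ℝ))

noncomputable def kf (n : ℕ) : ℝ := if n.Prime then hh n + 1 / n else 0

theorem log_bound {u : ℝ} (h0 : 0 ≤ u) (h1 : u ≤ 1 / 2) : |Real.log (1 - u) + u| ≤ 2 * u ^ 2 := by
  have h2 : 0 < 1 - u := by linarith
  rw [abs_le]
  constructor
  · have h3 := Real.one_sub_inv_le_log_of_pos h2
    have h4 : -(u + 2 * u ^ 2) ≤ 1 - (1 - u)⁻¹ := by
      have h5 : (1 - u)⁻¹ ≤ 1 + u + 2 * u ^ 2 := by
        rw [inv_le_iff_one_le_mul₀ h2]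
        nlinarith [mul_nonneg h0 h0, mul_nonneg (mul_nonneg h0 h0) (by linarith : 0 ≤ 1 / 2 - u)]
      linarith
    linarith
  · have h3 := Real.log_le_sub_one_of_pos h2
    nlinarith [sq_nonneg u]

theorem inv_le_half {n : ℕ} (h : ¬ n ≤ 2) : 1 / (n : ℝ) ≤ 1 / 2 := by
  have h6 : (2 : ℝ) ≤ n := by
    have : 2 ≤ n := by omega
    exact_mod_cast this
  exact one_div_le_one_div_of_le (by norm_num) h6

theorem kf_bound (n : ℕ) : ‖kf n‖ ≤ 2 * (1 / (n : ℝ) ^ 2) := by
  unfold kf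
  split_ifs with hn
  · have hn2 : (2 : ℝ) ≤ n := by exact_mod_cast hn.two_le
    have hn0 : (0 : ℝ) < n := by linarith
    unfold hh
    split_ifs with h5
    · have h5' : (n : ℝ) ≤ 2 := by exact_mod_cast h5
      rw [zero_add, Real.norm_of_nonneg (by positivity)]
      rw [mul_one_div, div_le_div_iff₀ hn0 (by positivity)]
      nlinarith
    · have := log_bound (u := 1 / (n : ℝ)) (by positivity) (inv_le_half h5)
      rw [Real.norm_eq_abs]
      refine this.trans (le_of_eq ?_)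
      rw [div_pow, one_pow]
  · rw [norm_zero]
    positivity

theorem kf_summable : Summable kf :=
  Summable.of_norm_bounded ((Real.summable_one_div_nat_pow.2 (by norm_num)).mul_left 2) kf_bound

/-- the sum of the logarithms of the local factors -/
noncomputable def LL (N : ℕ) : ℝ := ∑ p ∈ (Icc 1 N).filter Nat.Prime, hh p

theorem hh_nonpos (n : ℕ) : hh n ≤ 0 := by
  unfold hh
  split_ifs with h
  · exact le_rfl
  · have h7 := inv_le_half h
    refine Real.log_nonpos (by linarith) ?_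
    have : 0 ≤ 1 / (n : ℝ) := by positivity
    linarith

theorem LL_anti {a b : ℕ} (h : a ≤ b) : LL b ≤ LL a := by
  unfold LL
  rw [← sum_sdiff (filter_subset_filter _ (Icc_subset_Icc_right h))]
  have : ∑ p ∈ (Icc 1 b).filter Nat.Prime \ (Icc 1 a).filter Nat.Prime, hh p ≤ 0 :=
    sum_nonpos fun p _ => hh_nonpos p
  linarith

theorem LL_tendsto : ∃ B : ℝ, Tendsto (fun N : ℕ => LL N + Real.log (Real.log N)) atTop (𝓝 B) := by
  obtain ⟨M, hM⟩ := Pool.Agent.H305R2.mertens_inv_tendsto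
  have h1 := (kf_summable.hasSum.tendsto_sum_nat).comp (tendsto_add_atTop_nat 1)
  have h2 := h1.sub hM
  refine ⟨_, h2.congr fun N => ?_⟩
  simp only [Function.comp_apply]
  have h3 : ∑ n ∈ range (N + 1), kf n =
      LL N + ∑ p ∈ (Icc 1 N).filter Nat.Prime, (1 : ℝ) / p := by
    unfold LL
    rw [← sum_add_distrib, sum_filter]
    have h4 : range (N + 1) = insert 0 (Icc 1 N) := by
      ext i
      simp only [mem_range, mem_insert, mem_Icc]
      omega
    rw [h4, sum_insert (by simp)]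
    have h5 : kf 0 = 0 := by simp [kf, Nat.not_prime_zero]
    rw [h5, zero_add]
    refine sum_congr rfl fun i _ => ?_
    unfold kf
    rfl
  rw [h3]
  ring

/-- the local factor -/
noncomputable def ff (l : ℕ) : ℝ := if l ≤ 2 then 1 else 1 - 1 / (l : ℝ)

theorem prod_split {z T : ℕ} (hz : 2 ≤ z) (hT : z ≤ T) :
    ∏ l ∈ (Icc 1 T).filter Nat.Prime, ff l =
      (∏ l ∈ (Icc 1 z).filter Nat.Prime, ff l) * Real.exp (LL T - LL z) := by
  have hsub : (Icc 1 z).filter Nat.Prime ⊆ (Icc 1 T).filter Nat.Prime :=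
    filter_subset_filter _ (Icc_subset_Icc_right hT)
  have h1 : LL T - LL z = ∑ p ∈ (Icc 1 T).filter Nat.Prime \ (Icc 1 z).filter Nat.Prime, hh p := by
    unfold LL
    rw [← sum_sdiff hsub]
    ring
  rw [h1, Real.exp_sum, ← prod_sdiff hsub, mul_comm]
  congr 1
  refine prod_congr rfl fun l hl => ?_
  have hlz : z < l := by
    rw [Finset.mem_sdiff, Finset.mem_filter, Finset.mem_filter, Finset.mem_Icc,
      Finset.mem_Icc] at hl
    by_contra h
    exact hl.2 ⟨⟨hl.1.1.1, by omega⟩, hl.1.2⟩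
  have h3 : ¬ l ≤ 2 := by omega
  unfold ff hh
  rw [if_neg h3, if_neg h3, Real.exp_log]
  have h7 := inv_le_half h3
  linarith

theorem prod_nonneg' (z : ℕ) : 0 ≤ ∏ l ∈ (Icc 1 z).filter Nat.Prime, ff l := by
  refine prod_nonneg fun l hl => ?_
  unfold ff
  split_ifs with h2
  · norm_num
  · have := inv_le_half h2
    linarith

theorem log_ratio {T : ℕ → ℕ} {a c₁ c₂ : ℝ} (h1 : 0 < c₁) (h2 : 0 < c₂)
    (hT : ∀ᶠ N : ℕ in atTop, c₁ * (N : ℝ) ^ a ≤ T N ∧ (T N : ℝ) ≤ c₂ * (N : ℝ) ^ a) :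
    Tendsto (fun N : ℕ => Real.log (T N) / Real.log N) atTop (𝓝 a) := by
  have hlog : Tendsto (fun N : ℕ => Real.log (N : ℝ)) atTop atTop :=
    Real.tendsto_log_atTop.comp tendsto_natCast_atTop_atTop
  have hc : ∀ c : ℝ, Tendsto (fun N : ℕ => c / Real.log (N : ℝ) + a) atTop (𝓝 a) := by
    intro c
    have := (hlog.const_div_atTop c).add_const a
    simpa using this
  refine tendsto_of_tendsto_of_tendsto_of_le_of_le' (hc (Real.log c₁)) (hc (Real.log c₂)) ?_ ?_
  · filter_upwards [hT, eventually_gt_atTop 1] with N hN hN1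
    have hN0 : (0 : ℝ) < N := by positivity
    have hl : 0 < Real.log (N : ℝ) := Real.log_pos (by exact_mod_cast hN1)
    have h3 := Real.log_le_log (by positivity) hN.1
    rw [Real.log_mul h1.ne' (by positivity), Real.log_rpow hN0] at h3
    rw [le_div_iff₀ hl, add_mul, div_mul_cancel₀ _ hl.ne']
    exact h3
  · filter_upwards [hT, eventually_gt_atTop 1] with N hN hN1
    have hN0 : (0 : ℝ) < N := by positivity
    have hl : 0 < Real.log (N : ℝ) := Real.log_pos (by exact_mod_cast hN1)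
    have h4 : 0 < (T N : ℝ) := lt_of_lt_of_le (by positivity) hN.1
    have h3 := Real.log_le_log h4 hN.2
    rw [Real.log_mul h2.ne' (by positivity), Real.log_rpow hN0] at h3
    rw [div_le_iff₀ hl, add_mul, div_mul_cancel₀ _ hl.ne']
    exact h3

theorem LL_diff {T z : ℕ → ℕ} {s : ℝ} (hs : 0 < s) (hT : Tendsto T atTop atTop)
    (hz : Tendsto z atTop atTop)
    (hTl : Tendsto (fun N : ℕ => Real.log (T N) / Real.log N) atTop (𝓝 (1 / 2)))
    (hzl : Tendsto (fun N : ℕ => Real.log (z N) / Real.log N) atTop (𝓝 (s / 2))) :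
    Tendsto (fun N : ℕ => Real.exp (LL (T N) - LL (z N))) atTop (𝓝 s) := by
  obtain ⟨B, hB⟩ := LL_tendsto
  have h1 := hB.comp hT
  have h2 := hB.comp hz
  have h3 := hzl.div hTl (by norm_num)
  have h4 : Tendsto (fun N : ℕ => Real.log (z N) / Real.log (T N)) atTop (𝓝 s) := by
    have : s / 2 / (1 / 2) = s := by ring
    rw [this] at h3
    refine h3.congr' ?_
    filter_upwards [eventually_gt_atTop 1] with N hN1
    have hl : 0 < Real.log (N : ℝ) := Real.log_pos (by exact_mod_cast hN1)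
    simp only [Pi.div_apply]
    rw [div_div_div_cancel_right₀ hl.ne']
  have h5 := h4.log hs.ne'
  have h6 := ((h1.sub h2).add h5)
  have h7 : B - B + Real.log s = Real.log s := by ring
  rw [h7] at h6
  have h8 : Tendsto (fun N : ℕ => LL (T N) - LL (z N)) atTop (𝓝 (Real.log s)) := by
    refine h6.congr' ?_
    filter_upwards [hT.eventually_ge_atTop 2, hz.eventually_ge_atTop 2] with N hN1 hN2
    have hl1 : 0 < Real.log (T N : ℝ) := Real.log_pos (by exact_mod_cast hN1)
    have hl2 : 0 < Real.log (z N : ℝ) := Real.log_pos (by exact_mod_cast hN2)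
    simp only [Function.comp_apply]
    rw [Real.log_div hl2.ne' hl1.ne']
    ring
  have h9 := (Real.continuous_exp.tendsto _).comp h8
  rw [Real.exp_log hs] at h9
  exact h9

theorem un_mono {M : ℕ} {Q Q' : ℕ → Prop} (h : ∀ y, Q y → Q' y) : un M Q ≤ un M Q' := by
  classical
  unfold un
  refine div_le_div_of_nonneg_right ?_ (Nat.cast_nonneg _)
  have : ((range M).filter Q).card ≤ ((range M).filter Q').card :=
    card_le_card (monotone_filter_right _ fun y _ hy => h y hy)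
  exact_mod_cast this

theorem rpow_half_sq (N : ℕ) : ((N : ℝ) ^ (1 / 2 : ℝ)) ^ 2 = N := by
  rw [← Real.rpow_natCast, ← Real.rpow_mul (Nat.cast_nonneg _)]
  norm_num

theorem sqrt_up : ∀ᶠ N : ℕ in atTop, (1 / 2 : ℝ) * (N : ℝ) ^ (1 / 2 : ℝ) ≤ Nat.sqrt (2 * N) ∧
    (Nat.sqrt (2 * N) : ℝ) ≤ 3 * (N : ℝ) ^ (1 / 2 : ℝ) := by
  filter_upwards [eventually_ge_atTop 4] with N hN
  have hN' : (4 : ℝ) ≤ N := by exact_mod_cast hN
  have h0 := rpow_half_sq N
  have h1 : 0 ≤ (N : ℝ) ^ (1 / 2 : ℝ) := by positivity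
  have h2 : 2 ≤ (N : ℝ) ^ (1 / 2 : ℝ) := by nlinarith
  have h3 : (Nat.sqrt (2 * N) : ℝ) ^ 2 ≤ 2 * N := by exact_mod_cast Nat.sqrt_le' (2 * N)
  have h4 : 2 * (N : ℝ) < ((Nat.sqrt (2 * N) : ℝ) + 1) ^ 2 := by
    exact_mod_cast Nat.lt_succ_sqrt' (2 * N)
  have h5 : (0 : ℝ) ≤ Nat.sqrt (2 * N) := Nat.cast_nonneg _
  constructor
  · by_contra h
    push Not at h
    nlinarith
  · by_contra h
    push Not at h
    nlinarith

theorem sqrt_lo : ∀ᶠ N : ℕ in atTop, (1 / 4 : ℝ) * (N : ℝ) ^ (1 / 2 : ℝ) ≤ Nat.sqrt (N / 2) ∧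
    (Nat.sqrt (N / 2) : ℝ) ≤ 1 * (N : ℝ) ^ (1 / 2 : ℝ) := by
  filter_upwards [eventually_ge_atTop 16] with N hN
  have hN' : (16 : ℝ) ≤ N := by exact_mod_cast hN
  have h0 := rpow_half_sq N
  have h1 : 0 ≤ (N : ℝ) ^ (1 / 2 : ℝ) := by positivity
  have h2 : 4 ≤ (N : ℝ) ^ (1 / 2 : ℝ) := by nlinarith
  have h3 : (Nat.sqrt (N / 2) : ℝ) ^ 2 ≤ N := by
    have : Nat.sqrt (N / 2) ^ 2 ≤ N := (Nat.sqrt_le' (N / 2)).trans (Nat.div_le_self _ _)
    exact_mod_cast this
  have h4 : (N : ℝ) / 2 ≤ ((Nat.sqrt (N / 2) : ℝ) + 1) ^ 2 := by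
    have h6 := Nat.lt_succ_sqrt' (N / 2)
    rw [Nat.succ_eq_add_one] at h6
    have h7 : N ≤ 2 * (Nat.sqrt (N / 2) + 1) ^ 2 := by omega
    have h8 : (N : ℝ) ≤ 2 * ((Nat.sqrt (N / 2) : ℝ) + 1) ^ 2 := by exact_mod_cast h7
    linarith
  have h5 : (0 : ℝ) ≤ Nat.sqrt (N / 2) := Nat.cast_nonneg _
  constructor
  · by_contra h
    push Not at h
    nlinarith
  · by_contra h
    push Not at h
    nlinarith

theorem T_NT2 (hPRD : P_PRD) : P_NT2 := by
  intro s hs0 hs1 ε hε
  set z : ℕ → ℕ := fun N => ⌊(N : ℝ) ^ (s / 2)⌋₊ with hz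
  have hpow : Tendsto (fun N : ℕ => (N : ℝ) ^ (s / 2)) atTop atTop :=
    (tendsto_rpow_atTop (by positivity)).comp tendsto_natCast_atTop_atTop
  have hzt : Tendsto z atTop atTop := tendsto_nat_floor_atTop.comp hpow
  have hzb : ∀ᶠ N : ℕ in atTop, (1 / 2 : ℝ) * (N : ℝ) ^ (s / 2) ≤ z N ∧
      (z N : ℝ) ≤ 1 * (N : ℝ) ^ (s / 2) := by
    filter_upwards [hpow.eventually_ge_atTop 2] with N hN
    have h1 := Nat.floor_le (show 0 ≤ (N : ℝ) ^ (s / 2) by positivity)
    have h2 := Nat.lt_floor_add_one ((N : ℝ) ^ (s / 2))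
    constructor
    · simp only [hz]
      linarith
    · simp only [hz]
      linarith
  have hzl := log_ratio (by norm_num) (by norm_num) hzb
  have hupl := log_ratio (by norm_num) (by norm_num) sqrt_up
  have hlol := log_ratio (by norm_num) (by norm_num) sqrt_lo
  have hsq : Tendsto Nat.sqrt atTop atTop := by
    refine tendsto_atTop.2 fun b => ?_
    filter_upwards [eventually_ge_atTop (b ^ 2)] with n hn
    rw [Nat.le_sqrt']
    exact hn
  have hT1 : Tendsto (fun N : ℕ => Nat.sqrt (2 * N)) atTop atTop :=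
    hsq.comp (tendsto_id.const_mul_atTop' (by norm_num))
  have hT2 : Tendsto (fun N : ℕ => Nat.sqrt (N / 2)) atTop atTop :=
    hsq.comp (Nat.tendsto_div_const_atTop (by norm_num))
  have hlim1 := LL_diff hs0 hT1 hzt hupl hzl
  have hlim2 := LL_diff hs0 hT2 hzt hlol hzl
  have e1 := hlim1.eventually_const_lt (show s - ε < s by linarith)
  have e2 := hlim2.eventually_lt_const (show s < s + ε by linarith)
  have e3 : ∀ᶠ N : ℕ in atTop, 2 * z N ^ 2 ≤ N := by
    have hp2 : Tendsto (fun N : ℕ => (N : ℝ) ^ (1 - s)) atTop atTop :=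
      (tendsto_rpow_atTop (by linarith)).comp tendsto_natCast_atTop_atTop
    filter_upwards [hp2.eventually_ge_atTop 2, hzb, eventually_gt_atTop 0] with N hN hN' hN0
    have hN0' : (0 : ℝ) < N := by exact_mod_cast hN0
    have h1 : (z N : ℝ) ^ 2 ≤ (N : ℝ) ^ s := by
      have h2 : (N : ℝ) ^ s = ((N : ℝ) ^ (s / 2)) ^ 2 := by
        rw [← Real.rpow_natCast, ← Real.rpow_mul hN0'.le]
        congr 1
        push_cast
        ring
      rw [h2]
      have := hN'.2
      rw [one_mul] at this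
      exact pow_le_pow_left₀ (Nat.cast_nonneg _) this 2
    have h3 : (N : ℝ) ^ s * (N : ℝ) ^ (1 - s) = N := by
      rw [← Real.rpow_add hN0']
      simp
    have h4 : 2 * (z N : ℝ) ^ 2 ≤ N := by
      have h5 : 0 ≤ (N : ℝ) ^ s := by positivity
      nlinarith
    exact_mod_cast h4
  filter_upwards [e1, e2, e3, hzt.eventually_ge_atTop 2] with N h1 h2 h3 h4 m k hNm hmN hfull
  change (s - ε) * un k (fun y => r (z N) m (2 * y + 1)) ≤ un k (fun y => PrimeIn m (2 * y + 1)) ∧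
    un k (fun y => PrimeIn m (2 * y + 1)) ≤ (s + ε) * un k (fun y => r (z N) m (2 * y + 1))
  have hzc : z N ^ 2 ≤ m := by omega
  obtain ⟨hk0, hk⟩ := hfull
  have hP : ∀ T : ℕ, T ^ 2 ≤ m →
      un k (fun y => ∀ l ∈ ((Icc 1 T).filter Nat.Prime).filter (fun l => ¬ l ≤ 2), ¬ l ∣ 2 * y + 1) =
        ∏ l ∈ (Icc 1 T).filter Nat.Prime, ff l := by
    intro T hT
    rw [hPRD k _ hk0 fun l hl => ?_]
    · rw [Finset.prod_filter (fun l : ℕ => ¬ l ≤ 2)]
      refine Finset.prod_congr rfl fun l _ => ?_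
      unfold ff
      by_cases h5 : l ≤ 2
      · rw [if_pos h5, if_neg (not_not.2 h5)]
      · rw [if_neg h5, if_pos h5]
    · have hl1 := Finset.mem_filter.1 hl
      have hlp := (Finset.mem_filter.1 hl1.1).2
      have hlT := (Finset.mem_Icc.1 (Finset.mem_filter.1 hl1.1).1).2
      refine ⟨hlp, fun h5 => hl1.2 h5.le, hk l hlp.one_le ?_⟩
      exact ((Nat.le_self_pow (by norm_num) l).trans (Nat.pow_le_pow_left hlT 2)).trans hT
  have h2d : ∀ (y l : ℕ), l.Prime → l ≤ 2 → ¬ l ∣ 2 * y + 1 := by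
    intro y l hl h5 hd
    have : l = 2 := le_antisymm h5 hl.two_le
    subst this
    omega
  have hR : un k (fun y => r (z N) m (2 * y + 1)) = ∏ l ∈ (Icc 1 (z N)).filter Nat.Prime, ff l := by
    rw [← hP (z N) hzc]
    congr 1
    funext y
    apply propext
    constructor
    · intro h l hl
      have hl1 := Finset.mem_filter.1 hl
      have hlp := (Finset.mem_filter.1 hl1.1).2
      have hlT := (Finset.mem_Icc.1 (Finset.mem_filter.1 hl1.1).1).2
      exact h l hlp hlT ((Nat.pow_le_pow_left hlT 2).trans hzc)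
    · intro h p hp hpz _
      by_cases h5 : p ≤ 2
      · exact h2d y p hp h5
      · exact h p (Finset.mem_filter.2 ⟨Finset.mem_filter.2 ⟨Finset.mem_Icc.2 ⟨hp.one_le, hpz⟩, hp⟩, h5⟩)
  have hF : un k (fun y => PrimeIn m (2 * y + 1)) =
      ∏ l ∈ (Icc 1 (Nat.sqrt m)).filter Nat.Prime, ff l := by
    rw [← hP (Nat.sqrt m) (Nat.sqrt_le' m)]
    congr 1
    funext y
    apply propext
    constructor
    · intro h l hl
      have hl1 := Finset.mem_filter.1 hl
      have hlp := (Finset.mem_filter.1 hl1.1).2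
      have hlT := (Finset.mem_Icc.1 (Finset.mem_filter.1 hl1.1).1).2
      exact h l hlp ((Nat.pow_le_pow_left hlT 2).trans (Nat.sqrt_le' m))
    · intro h p hp hpz
      by_cases h5 : p ≤ 2
      · exact h2d y p hp h5
      · exact h p (Finset.mem_filter.2 ⟨Finset.mem_filter.2
          ⟨Finset.mem_Icc.2 ⟨hp.one_le, Nat.le_sqrt'.2 hpz⟩, hp⟩, h5⟩)
  have hP0 := prod_nonneg' (z N)
  have hz1 : z N ≤ Nat.sqrt m := Nat.le_sqrt'.2 hzc
  rw [hF, hR, prod_split h4 hz1]
  have hmono1 : Real.exp (LL (Nat.sqrt (2 * N)) - LL (z N)) ≤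
      Real.exp (LL (Nat.sqrt m) - LL (z N)) := by
    rw [Real.exp_le_exp]
    have := LL_anti (Nat.sqrt_le_sqrt hmN)
    linarith
  have hmono2 : Real.exp (LL (Nat.sqrt m) - LL (z N)) ≤
      Real.exp (LL (Nat.sqrt (N / 2)) - LL (z N)) := by
    rw [Real.exp_le_exp]
    have := LL_anti (Nat.sqrt_le_sqrt (show N / 2 ≤ m by omega))
    linarith
  constructor
  · rw [mul_comm]
    exact mul_le_mul_of_nonneg_left (h1.le.trans hmono1) hP0
  · rw [mul_comm]
    exact mul_le_mul_of_nonneg_right (hmono2.trans h2.le) hP0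

end Pool.Agent.H405.GB
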